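import Mathlib

/-!
Project EC: the circle is a finite CW complex.
-/

set_option autoImplicit false

open Topology Metric Set

namespace Pool.Agent.E8helper81.EC

/-- the cells -/
def cell : ℕ → Type
  | 0 => Unit
  | 1 => Unit
  | _ + 2 => Empty

/-- the `0`-cell -/
def c0 : cell 0 := ()

/-- the `1`-cell -/
def c1 : cell 1 := ()

/-- the parametrisation of the `1`-cell -/
noncomputable def e1 : OpenPartialHomeomorph (Fin 1 → ℝ) (AddCircle (1 : ℝ)) :=
  ((Homeomorph.funUnique (Fin 1) ℝ).trans
    (affineHomeomorph (1 / 2) (1 / 2) (by norm_num))).transOpenPartialHomeomorph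
    (AddCircle.openPartialHomeomorphCoe (1 : ℝ) 0)

/-- the `0`-cell -/
def e0 : PartialEquiv (Fin 0 → ℝ) (AddCircle (1 : ℝ)) where
  toFun := fun _ => 0
  invFun := fun _ => 0
  source := univ
  target := {0}
  map_source' := fun _ _ => rfl
  map_target' := fun _ _ => mem_univ _
  left_inv' := fun _ _ => Subsingleton.elim _ _
  right_inv' := fun _ hx => hx.symm

/-- the characteristic maps -/
noncomputable def cmap : (n : ℕ) → cell n → PartialEquiv (Fin n → ℝ) (AddCircle (1 : ℝ))
  | 0, _ => e0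
  | 1, _ => e1.toPartialEquiv
  | _ + 2, i => i.elim

lemma e1_apply (x : Fin 1 → ℝ) : e1 x = ((1 / 2 * x 0 + 1 / 2 : ℝ) : AddCircle (1 : ℝ)) := rfl

lemma e1_source : e1.source = ball 0 1 := by
  ext x
  have h1 : x ∈ e1.source ↔ 1 / 2 * x 0 + 1 / 2 ∈ Ioo (0 : ℝ) (0 + 1) := Iff.rfl
  rw [h1, mem_ball_zero_iff, pi_norm_lt_iff one_pos, mem_Ioo]
  simp only [Fin.forall_fin_one, Real.norm_eq_abs, abs_lt]
  constructor
  · rintro ⟨h2, h3⟩
    constructor <;> linarith
  · rintro ⟨h2, h3⟩
    constructor <;> linarith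

lemma e1_target : e1.target = {0}ᶜ := by
  have h1 : e1.target = ({((0 : ℝ) : AddCircle (1 : ℝ))}ᶜ : Set (AddCircle (1 : ℝ))) := rfl
  rw [h1]
  rfl

lemma e1_image : e1 '' ball 0 1 = {0}ᶜ := by
  rw [← e1_source, ← e1_target]
  exact e1.image_source_eq_target

lemma src (n : ℕ) (i : cell n) : (cmap n i).source = ball 0 1 := by
  match n, i with
  | 0, i =>
    show (univ : Set (Fin 0 → ℝ)) = ball 0 1
    symm
    rw [eq_univ_iff_forall]
    intro x
    rw [Subsingleton.elim x 0]
    exact mem_ball_self one_pos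
  | 1, i => exact e1_source
  | n + 2, i => exact i.elim

lemma cont (n : ℕ) (i : cell n) : ContinuousOn (cmap n i) (closedBall 0 1) := by
  match n, i with
  | 0, i => exact continuousOn_const
  | 1, i =>
    have h : Continuous (fun x : Fin 1 → ℝ => ((1 / 2 * x 0 + 1 / 2 : ℝ) : AddCircle (1 : ℝ))) :=
      (AddCircle.continuous_mk' 1).comp (by fun_prop)
    exact h.continuousOn
  | n + 2, i => exact i.elim

lemma cont_symm (n : ℕ) (i : cell n) : ContinuousOn (cmap n i).symm (cmap n i).target := by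
  match n, i with
  | 0, i => exact continuousOn_const
  | 1, i => exact e1.continuousOn_symm
  | n + 2, i => exact i.elim

lemma img0 (i : cell 0) (s : Set (Fin 0 → ℝ)) (hs : (0 : Fin 0 → ℝ) ∈ s) :
    cmap 0 i '' s = {0} := by
  ext y
  constructor
  · rintro ⟨x, -, rfl⟩
    rfl
  · rintro rfl
    exact ⟨0, hs, rfl⟩

lemma disj : (univ : Set (Σ n, cell n)).PairwiseDisjoint (fun ni => cmap ni.1 ni.2 '' ball 0 1) := by
  rintro ⟨n, i⟩ - ⟨m, j⟩ - hne
  show Disjoint (cmap n i '' ball 0 1) (cmap m j '' ball 0 1)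
  match n, i, m, j with
  | 0, i, 0, j => exact absurd rfl hne
  | 0, i, 1, j =>
    rw [img0 i _ (mem_ball_self one_pos)]
    have : cmap 1 j '' ball 0 1 = {0}ᶜ := e1_image
    rw [this]
    exact disjoint_compl_right
  | 1, i, 0, j =>
    rw [img0 j _ (mem_ball_self one_pos)]
    have : cmap 1 i '' ball 0 1 = {0}ᶜ := e1_image
    rw [this]
    exact disjoint_compl_left
  | 1, i, 1, j => exact absurd rfl hne
  | n + 2, i, _, _ => exact i.elim
  | 0, _, m + 2, j => exact j.elim
  | 1, _, m + 2, j => exact j.elim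

lemma mapsTo' (n : ℕ) (i : cell n) :
    MapsTo (cmap n i) (sphere 0 1) (⋃ (m < n) (j : cell m), cmap m j '' closedBall 0 1) := by
  match n, i with
  | 0, i =>
    intro x hx
    rw [mem_sphere_zero_iff_norm, Subsingleton.elim x 0, norm_zero] at hx
    exact absurd hx zero_ne_one
  | 1, i =>
    intro x hx
    simp only [mem_iUnion]
    refine ⟨0, one_pos, c0, ?_⟩
    rw [img0 _ _ (mem_closedBall_self zero_le_one), mem_singleton_iff]
    show ((1 / 2 * x 0 + 1 / 2 : ℝ) : AddCircle (1 : ℝ)) = 0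
    have h1 : |x 0| = 1 := by
      rw [mem_sphere_zero_iff_norm] at hx
      have h2 : ‖x‖ = ‖x 0‖ := by
        apply le_antisymm
        · rw [pi_norm_le_iff_of_nonneg (norm_nonneg _)]
          intro i
          rw [Subsingleton.elim i 0]
        · exact norm_le_pi_norm x 0
      rw [h2, Real.norm_eq_abs] at hx
      exact hx
    rcases (abs_eq zero_le_one).1 h1 with h2 | h2
    · rw [h2]
      norm_num
    · rw [h2]
      norm_num
  | n + 2, i => exact i.elim

lemma uni : ⋃ (n : ℕ) (j : cell n), cmap n j '' closedBall 0 1 = univ := by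
  rw [eq_univ_iff_forall]
  intro y
  simp only [mem_iUnion]
  by_cases hy : y = 0
  · refine ⟨0, c0, ?_⟩
    rw [img0 _ _ (mem_closedBall_self zero_le_one), hy]
    rfl
  · refine ⟨1, c1, ?_⟩
    have h1 : y ∈ e1 '' ball 0 1 := by
      rw [e1_image]
      exact hy
    exact image_mono ball_subset_closedBall h1

lemma ev : ∀ᶠ n in Filter.atTop, IsEmpty (cell n) := by
  rw [Filter.eventually_atTop]
  refine ⟨2, fun n hn => ?_⟩
  obtain ⟨m, rfl⟩ : ∃ m, n = m + 2 := ⟨n - 2, by omega⟩
  exact (inferInstance : IsEmpty Empty)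

lemma fin (n : ℕ) : Finite (cell n) := by
  match n with
  | 0 => exact (inferInstance : Finite Unit)
  | 1 => exact (inferInstance : Finite Unit)
  | n + 2 => exact (inferInstance : Finite Empty)

/-- the circle is a finite CW complex -/
theorem circle_cw : ∃ _ : Topology.CWComplex (univ : Set (AddCircle (1 : ℝ))),
    Topology.RelCWComplex.Finite (univ : Set (AddCircle (1 : ℝ))) :=
  ⟨Topology.CWComplex.mkFinite univ cell cmap ev fin src cont cont_symm disj mapsTo' uni,
    Topology.CWComplex.finite_mkFinite univ cell cmap ev fin src cont cont_symm disj mapsTo' uni⟩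

/-- a space which is a finite CW complex and homeomorphic to the circle -/
theorem t_CWC : ∃ (Y : Type) (_ : TopologicalSpace Y) (_ : T2Space Y)
    (_ : Topology.CWComplex (univ : Set Y)), Topology.RelCWComplex.Finite (univ : Set Y) ∧
      Nonempty (Y ≃ₜ AddCircle (1 : ℝ)) := by
  obtain ⟨C, hC⟩ := circle_cw
  exact ⟨AddCircle (1 : ℝ), inferInstance, inferInstance, C, hC, ⟨Homeomorph.refl _⟩⟩

end Pool.Agent.E8helper81.EC
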